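import Pool.Agent.Work.MP_2967d5_an.C.Main

/-! Multiple correlations: the factor with the least colour is averaged out. -/

open MeasureTheory Set Filter Topology
open scoped symmDiff ENNReal

namespace Pool.Agent.Work.MP_2967d5_an.AO

theorem bd_one {α : Type*} [MeasurableSpace α] : Bd fun _ : α => (1 : ℝ) :=
  ⟨measurable_const, fun _ => by simp⟩

theorem bd_prod {α L : Type*} [MeasurableSpace α] (s : Finset L) {F : L → α → ℝ}
    (hF : ∀ l ∈ s, Bd (F l)) : Bd fun z => ∏ l ∈ s, F l z :=
  ⟨Finset.measurable_prod _ fun l hl => (hF l hl).meas, fun z => by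
    rw [Finset.abs_prod]
    exact Finset.prod_le_one (fun _ _ => abs_nonneg _) fun l hl => (hF l hl).le z⟩

theorem prod_tel {L : Type*} (s : Finset L) {a b : L → ℝ} (ha : ∀ l ∈ s, |a l| ≤ 1)
    (hb : ∀ l ∈ s, |b l| ≤ 1) : |∏ l ∈ s, a l - ∏ l ∈ s, b l| ≤ ∑ l ∈ s, |a l - b l| := by
  classical
  induction s using Finset.induction_on with
  | empty => simp
  | insert x s hx ih =>
    rw [Finset.prod_insert hx, Finset.prod_insert hx, Finset.sum_insert hx]
    have h1 := ih (fun l hl => ha l (Finset.mem_insert_of_mem hl))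
      (fun l hl => hb l (Finset.mem_insert_of_mem hl))
    have h2 : |∏ l ∈ s, b l| ≤ 1 := by
      rw [Finset.abs_prod]
      exact Finset.prod_le_one (fun _ _ => abs_nonneg _)
        fun l hl => hb l (Finset.mem_insert_of_mem hl)
    have e : a x * ∏ l ∈ s, a l - b x * ∏ l ∈ s, b l =
        (a x - b x) * ∏ l ∈ s, b l + a x * (∏ l ∈ s, a l - ∏ l ∈ s, b l) := by ring
    rw [e]
    refine (abs_add_le _ _).trans (add_le_add ?_ ?_)
    · rw [abs_mul]
      exact mul_le_of_le_one_right (abs_nonneg _) h2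
    · rw [abs_mul]
      exact (mul_le_of_le_one_left (abs_nonneg _) (ha x (Finset.mem_insert_self _ _))).trans h1

variable {X Y : Type*} [MeasurableSpace X] [MeasurableSpace Y] {m : Measure X} {η : Measure Y}
  [IsProbabilityMeasure m] [IsProbabilityMeasure η]

theorem split {σ : Type*} (P : Finset σ) {E : σ → Set X} (hE : ∀ p, MeasurableSet (E p))
    (hd : ∀ p ∈ P, ∀ q ∈ P, ∀ x, x ∈ E p → x ∈ E q → p = q) {w : X × Y → ℝ} (hw : Bd w)
    {φ : X → ℝ} (hφ : Bd φ) {θ : ℝ}
    (h : ∀ p ∈ P, |∫ z, φ z.1 * (E p).indicator 1 z.1 * w z ∂(m.prod η)| ≤ θ) :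
    |∫ z, φ z.1 * w z ∂(m.prod η)| ≤ m.real {x | ∀ p ∈ P, x ∉ E p} + P.card * θ := by
  set μ := m.prod η with hμ
  have mD : MeasurableSet {x | ∀ p ∈ P, x ∉ E p} := by
    have : {x | ∀ p ∈ P, x ∉ E p} = ⋂ p ∈ P, (E p)ᶜ := by ext x; simp
    rw [this]
    exact Finset.measurableSet_biInter _ fun p _ => (hE p).compl
  have ii : ∀ {D : Set X}, MeasurableSet D →
      Integrable (fun z => φ z.1 * D.indicator 1 z.1 * w z) μ := fun hD =>
    (((hφ.mul (bd_indicator hD)).comp measurable_fst).mul hw).integrable μ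
  have key : ∀ x, φ x = φ x * {x | ∀ p ∈ P, x ∉ E p}.indicator 1 x +
      ∑ p ∈ P, φ x * (E p).indicator 1 x := by
    intro x
    by_cases hx : ∀ p ∈ P, x ∉ E p
    · rw [indicator_of_mem (s := {x | ∀ p ∈ P, x ∉ E p}) hx,
        Finset.sum_eq_zero fun p hp => by rw [indicator_of_notMem (hx p hp), mul_zero]]
      simp
    · rw [indicator_of_notMem (s := {x | ∀ p ∈ P, x ∉ E p}) hx]
      push Not at hx
      obtain ⟨p, hp, hxp⟩ := hx
      rw [Finset.sum_eq_single p (fun q hq hqp => by
        rw [indicator_of_notMem (fun hxq => hqp (hd q hq p hp x hxq hxp)), mul_zero])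
        (fun h => absurd hp h), indicator_of_mem hxp]
      simp
  have e : ∫ z, φ z.1 * w z ∂μ =
      ∫ z, φ z.1 * {x | ∀ p ∈ P, x ∉ E p}.indicator 1 z.1 * w z ∂μ +
      ∑ p ∈ P, ∫ z, φ z.1 * (E p).indicator 1 z.1 * w z ∂μ := by
    rw [← integral_finsetSum _ fun p _ => ii (hE p),
      ← integral_add (ii mD) (integrable_finsetSum _ fun p _ => ii (hE p))]
    refine integral_congr_ae (Eventually.of_forall fun z => ?_)
    simp only [← Finset.sum_mul, ← add_mul]
    rw [← key]
  have d1 : |∫ z, φ z.1 * {x | ∀ p ∈ P, x ∉ E p}.indicator 1 z.1 * w z ∂μ| ≤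
      m.real {x | ∀ p ∈ P, x ∉ E p} := by
    refine (abs_int_le (((bd_indicator mD).comp measurable_fst).integrable μ)
      (Eventually.of_forall fun z => ?_)).trans (le_of_eq ?_)
    · by_cases hz : z.1 ∈ {x | ∀ p ∈ P, x ∉ E p}
      · rw [indicator_of_mem hz, Pi.one_apply, mul_one]
        exact ((hφ.comp measurable_fst).mul hw).le z
      · rw [indicator_of_notMem hz]; simp
    · rw [int_comp measurePreserving_fst (bd_indicator mD).meas, integral_indicator_one mD]
  have d2 := (Finset.abs_sum_le_sum_abs _ _).trans (Finset.sum_le_sum h)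
  rw [Finset.sum_const, nsmul_eq_mul] at d2
  rw [e]
  exact (abs_add_le _ _).trans (add_le_add d1 d2)

/-- Assembly over the types for a multiple correlation. -/
theorem assembleR {R : X ≃ᵐ X} {T : X × Y → X × Y}
    (hT : MeasurePreserving T (m.prod η) (m.prod η))
    (hTR : ∀ᵐ z ∂(m.prod η), (T z).1 = R z.1) {L : Type*} {s : Finset L} (hs0 : s.Nonempty)
    {f : L → X × Y → ℝ} (hf : ∀ l ∈ s, Bd (f l))
    {τ : X → ℕ} (hτ : Measurable τ) {K : ℕ} (hK : ∀ x, τ x < K) {J : ℕ → Finset ℕ} {u : ℕ}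
    (hu : 0 < u) (hJ : ∀ k, (J k).card = u ^ 2) {δ : ℝ} (hδ : 0 ≤ δ)
    (hO : ∀ l ∈ s, ∀ k < K, ∀ j ∈ J k, ∀ j' ∈ J k, j ≠ j' → ∀ ψ : X → ℝ, Bd ψ →
      (∀ x, ψ x ≠ 0 → τ (R^[j] x) = k ∧ τ (R^[j'] x) = k) →
      |∫ z, ψ z.1 * (f l (T^[j] z) * f l (T^[j'] z)) ∂(m.prod η)| ≤ δ)
    (hI : ∀ l ∈ s, ∀ k < K, ∀ j ∈ J k,
      ∫ z, {x | k < τ x}.indicator 1 (R^[j] z.1) * |f l (T^[j] z) - f l z| ∂(m.prod η) ≤ δ)
    (n : L → ℕ) {φ : X → ℝ} (hφ : Bd φ) :
    |∫ z, φ z.1 * ∏ l ∈ s, f l (T^[n l] z) ∂(m.prod η)| ≤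
      m.real {x | ∃ l ∈ s, ∃ l' ∈ s, l ≠ l' ∧ τ (R^[n l] x) = τ (R^[n l'] x)} +
        s.card * K * (1 / u + u * (s.card * δ) + s.card * δ) := by
  classical
  set μ := m.prod η with hμ
  have mT : ∀ j, Measurable T^[j] := fun j => hT.measurable.iterate j
  have mR : ∀ j, Measurable R^[j] := fun j => R.measurable.iterate j
  have hc1 : (1 : ℝ) ≤ s.card := by exact_mod_cast hs0.card_pos
  have hδ' : δ ≤ s.card * δ := le_mul_of_one_le_left hδ hc1
  have mV : ∀ p : L × ℕ, MeasurableSet {x | ∀ l' ∈ s.erase p.1, p.2 < τ (R^[n l'] x)} := by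
    intro p
    have : {x | ∀ l' ∈ s.erase p.1, p.2 < τ (R^[n l'] x)} =
        ⋂ l' ∈ s.erase p.1, {x | p.2 < τ (R^[n l'] x)} := by ext x; simp only [mem_ofPred_eq, mem_iInter]
    rw [this]
    exact Finset.measurableSet_biInter _ fun l' _ => meas_pred (hτ.comp (mR _)) (p.2 < ·)
  set E : L × ℕ → Set X := fun p =>
    {x | τ (R^[n p.1] x) = p.2} ∩ {x | ∀ l' ∈ s.erase p.1, p.2 < τ (R^[n l'] x)} with hE
  have mE : ∀ p, MeasurableSet (E p) := fun p =>
    (meas_pred (hτ.comp (mR _)) (· = p.2)).inter (mV p)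
  have bw : Bd fun z => ∏ l ∈ s, f l (T^[n l] z) := bd_prod s fun l hl => (hf l hl).comp (mT _)
  have main := split (m := m) (η := η) (s ×ˢ Finset.range K) mE (by
      rintro ⟨l, k⟩ hp ⟨l', k'⟩ hq x ⟨h1, h2⟩ ⟨h3, h4⟩
      have hl := (Finset.mem_product.mp hp).1
      have hl' := (Finset.mem_product.mp hq).1
      simp only [mem_ofPred_eq] at h1 h2 h3 h4 hl hl'
      by_cases hll : l = l'
      · subst hll
        rw [← h1, ← h3]
      · have a1 := h2 l' (Finset.mem_erase.mpr ⟨Ne.symm hll, hl'⟩)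
        have a2 := h4 l (Finset.mem_erase.mpr ⟨hll, hl⟩)
        omega) bw hφ (θ := 1 / u + u * (s.card * δ) + s.card * δ) (by
      rintro ⟨l, k⟩ hp
      have hl : l ∈ s := (Finset.mem_product.mp hp).1
      have hk : k < K := Finset.mem_range.mp (Finset.mem_product.mp hp).2
      have bg : Bd fun z => ∏ l' ∈ s.erase l, f l' (T^[n l'] z) :=
        bd_prod _ fun l' hl' => (hf l' (Finset.mem_of_mem_erase hl')).comp (mT _)
      have := core (W := {x | τ x = k}) hT hTR (hf l hl) bg (mV (l, k)) hu (hJ k)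
        (hδ.trans hδ') (fun j hj j' hj' hjj ψ hψ hs => (hO l hl k hk j hj j' hj' hjj ψ hψ hs).trans hδ')
        (fun j hj => ?_) (n l) 0 (hφ.mul (bd_indicator (mE (l, k)))) (fun x hx => ?_)
      · refine le_trans (le_of_eq ?_) this
        congr 1
        refine integral_congr_ae (Eventually.of_forall fun z => ?_)
        simp only [Function.iterate_zero, id]
        rw [Finset.mul_prod_erase s (fun l => f l (T^[n l] z)) hl]
      · have mG : ∀ l' ∈ s.erase l, Measurable fun z : X × Y =>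
            {x | k < τ x}.indicator (1 : X → ℝ) (R^[j] z.1) * |f l' (T^[j] z) - f l' z| :=
          fun l' hl' => ((bd_indicator (meas_pred hτ (k < ·))).comp
            ((mR j).comp measurable_fst)).meas.mul
            (((hf l' (Finset.mem_of_mem_erase hl')).meas.comp (mT j)).sub
              (hf l' (Finset.mem_of_mem_erase hl')).meas).abs
        have iG : ∀ l' ∈ s.erase l, Integrable (fun z : X × Y =>
            {x | k < τ x}.indicator (1 : X → ℝ) (R^[j] z.1) * |f l' (T^[j] z) - f l' z|) μ :=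
          fun l' hl' => ((((hf l' (Finset.mem_of_mem_erase hl')).comp (mT j)).integrable μ).sub
            ((hf l' (Finset.mem_of_mem_erase hl')).integrable μ)).abs.bdd_mul (c := 1)
            ((bd_indicator (meas_pred hτ (k < ·))).comp
              ((mR j).comp measurable_fst)).meas.aestronglyMeasurable
            (Eventually.of_forall ((bd_indicator (meas_pred hτ (k < ·))).comp
              ((mR j).comp measurable_fst)).le)
        have iS := integrable_finsetSum (s.erase l) fun l' hl' =>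
          (hT.iterate (n l')).integrable_comp_of_integrable (iG l' hl')
        refine (le_abs_self _).trans ((abs_int_le iS ?_).trans ?_)
        · filter_upwards [(Finset.eventually_all (s.erase l)).mpr fun l' _ =>
            ext_iter hT hTR (n l')] with z hz
          rw [abs_mul, abs_abs]
          by_cases hV : R^[j] z.1 ∈ {x | ∀ l' ∈ s.erase l, k < τ (R^[n l'] x)}
          · rw [indicator_of_mem hV, Pi.one_apply, abs_one, one_mul]
            refine (prod_tel _ (fun l' hl' => (hf l' (Finset.mem_of_mem_erase hl')).le _)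
              (fun l' hl' => (hf l' (Finset.mem_of_mem_erase hl')).le _)).trans
              (Finset.sum_le_sum fun l' hl' => le_of_eq ?_)
            simp only [Function.comp]
            rw [hz l' hl', indicator_of_mem (s := {x | k < τ x}) (by
              rw [iter_comm]; exact hV l' hl'), Pi.one_apply, one_mul, iter_comm T j (n l')]
          · rw [indicator_of_notMem hV, abs_zero, zero_mul]
            exact Finset.sum_nonneg fun l' _ =>
              mul_nonneg (indicator_nonneg (fun _ _ => zero_le_one) _) (abs_nonneg _)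
        · rw [integral_finsetSum _ fun l' hl' =>
            (hT.iterate (n l')).integrable_comp_of_integrable (iG l' hl')]
          refine (Finset.sum_le_sum (g := fun _ => δ) fun l' hl' => ?_).trans ?_
          · exact (le_of_eq (int_comp (hT.iterate (n l')) (mG l' hl'))).trans
              (hI l' (Finset.mem_of_mem_erase hl') k hk j hj)
          · rw [Finset.sum_const, nsmul_eq_mul]
            gcongr
            exact Finset.erase_subset _ _
      · have : x ∈ E (l, k) := by
          by_contra hn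
          simp [hn] at hx
        exact this)
  refine main.trans (add_le_add (measureReal_mono ?_ (measure_ne_top _ _)) (le_of_eq ?_))
  · intro x hx
    obtain ⟨l, hl, hmin⟩ := s.exists_min_image (fun l => τ (R^[n l] x)) hs0
    have h1 := hx (l, τ (R^[n l] x)) (Finset.mem_product.mpr ⟨hl, Finset.mem_range.mpr (hK _)⟩)
    by_contra hn
    apply h1
    refine ⟨rfl, fun l' hl' => ?_⟩
    have h2 := Finset.mem_erase.mp hl'
    refine lt_of_le_of_ne (hmin l' h2.2) fun he => hn ⟨l, hl, l', h2.2, h2.1.symm, he⟩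
  · rw [Finset.card_product, Finset.card_range]
    push_cast
    ring

/-- the times are pairwise at distance at least `N` -/
def Sep {L : Type*} (s : Finset L) (N : ℕ) (n : L → ℕ) : Prop :=
  ∀ l ∈ s, ∀ l' ∈ s, l ≠ l' → n l + N ≤ n l' ∨ n l' + N ≤ n l

theorem coin_small {R : X → X} (hR : MeasurePreserving R m m) {τ : X → ℕ} (hτ : Measurable τ)
    {N : ℕ} {e : ℝ} (he : 0 ≤ e) (hN : ∀ d, N ≤ d → m.real {x | τ x = τ (R^[d] x)} ≤ e)
    {L : Type*} {s : Finset L} {n : L → ℕ} (hn : Sep s N n) :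
    m.real {x | ∃ l ∈ s, ∃ l' ∈ s, l ≠ l' ∧ τ (R^[n l] x) = τ (R^[n l'] x)} ≤
      s.card * (s.card * e) := by
  have mR : ∀ j, Measurable R^[j] := fun j => hR.measurable.iterate j
  have one : ∀ a b : ℕ, a + N ≤ b → m.real {x | τ (R^[a] x) = τ (R^[b] x)} ≤ e := by
    intro a b hab
    obtain ⟨d, rfl⟩ := Nat.exists_eq_add_of_le (show a ≤ b by omega)
    have mD : MeasurableSet {x | τ x = τ (R^[d] x)} := measurableSet_eq_fun hτ (hτ.comp (mR d))
    refine le_trans (le_of_eq ?_) (hN d (by omega))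
    rw [← (hR.iterate a).measureReal_preimage mD.nullMeasurableSet]
    congr 1
    ext x
    simp only [mem_ofPred_eq, mem_preimage]
    rw [add_comm a d, Function.iterate_add_apply]
  have hsub : {x | ∃ l ∈ s, ∃ l' ∈ s, l ≠ l' ∧ τ (R^[n l] x) = τ (R^[n l'] x)} ⊆
      ⋃ l ∈ s, ⋃ l' ∈ s, {x | l ≠ l' ∧ τ (R^[n l] x) = τ (R^[n l'] x)} := by
    rintro x ⟨l, hl, l', hl', h⟩
    simp only [mem_iUnion]
    exact ⟨l, hl, l', hl', h⟩
  refine (measureReal_mono hsub (measure_ne_top _ _)).trans
    ((measureReal_biUnion_finset_le _ _).trans ((Finset.sum_le_sum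
      (g := fun _ => s.card * e) fun l hl => ?_).trans (by simp)))
  refine (measureReal_biUnion_finset_le _ _).trans ((Finset.sum_le_sum
      (g := fun _ => e) fun l' hl' => ?_).trans (by simp))
  by_cases hll : l = l'
  · simpa [hll] using he
  · rcases hn l hl l' hl' hll with h | h
    · exact (measureReal_mono (fun x hx => hx.2) (measure_ne_top _ _)).trans (one _ _ h)
    · exact (measureReal_mono (fun x hx => hx.2.symm) (measure_ne_top _ _)).trans (one _ _ h)

end Pool.Agent.Work.MP_2967d5_an.AO
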