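import Pool.Agent.Work.MP_2967d5_an.Defs

/-! Extensions that are mixing of all orders relative to the base. -/

open MeasureTheory Set
open scoped ENNReal

namespace Pool.Agent.Work.MP_2967d5_an

variable {X Y : Type*} [MeasurableSpace X] [MeasurableSpace Y]

/-- The extensions `T` of `R` that are mixing of every order relative to `R`: for all measurable
`A 0, …, A (r-1)`, the conditional probability of `⋂ T^{-n l} (A l)` given the base differs from
the product of the conditional probabilities of the sets `A l` at `R^{n l} x` by an `L¹` error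
that tends to zero as all the gaps of `n 0 < … < n (r-1)` tend to infinity. -/
def AllOrderMixing {m : Measure X} (η : Measure Y) (R : Aut m) : Set (Extensions η R) :=
  {T | ∀ (r : ℕ) (A : Fin r → Set (X × Y)), (∀ l, MeasurableSet (A l)) → ∀ ε : ℝ≥0∞, 0 < ε →
    ∃ N : ℕ, ∀ n : Fin r → ℕ, (∀ l l', l < l' → n l + N ≤ n l') →
      ∫⁻ x, ‖η.real {y | ∀ l, T.1.rep^[n l] (x, y) ∈ A l} -
        ∏ l, η.real {y | (R.rep^[n l] x, y) ∈ A l}‖ₑ ∂m ≤ ε}

end Pool.Agent.Work.MP_2967d5_an
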