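import Pool.Agent.Work.MP_2967d5_an.AO.Asm
import Pool.Agent.Work.MP_2967d5_an.AO.Defs

/-! Extensions mixing of all orders are residual over a base that is not partially rigid. -/

open MeasureTheory Set Filter Topology
open scoped symmDiff ENNReal

namespace Pool.Agent.Work.MP_2967d5_an.AO

variable {X Y : Type*} [MeasurableSpace X] [MeasurableSpace Y] {m : Measure X} {η : Measure Y}
  [IsProbabilityMeasure m] [IsProbabilityMeasure η]

theorem dense_prodR [StandardBorelSpace X] [StandardBorelSpace Y] {R : Aut m} (hR : Clock R)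
    (hC : Col R)
    {S : Aut η} (hS : IsMixing S) {Φ Φ' : X × Y → X × Y} (hG : Gauge m η Φ Φ')
    {ι : Type} [Fintype ι] {Q : ι → Set Y} (hQ : ∀ i, MeasurableSet (Q i)) {ε c : ℝ} (hε : 0 < ε)
    (hc : 0 < c) {Λ : Type*} {σ : Finset Λ} (hσ : σ.Nonempty) :
    ∃ T₁ : Aut (m.prod η), T₁ ∈ Extensions η R ∧
      (m.prod η).real {z | T₁.rep z ≠ Φ (pm R.rep (Φ' z))} ≤ c ∧
      ∃ N, ∀ᶠ T in 𝓝 T₁, T ∈ Extensions η R → ∀ n, Sep σ N n → ∀ (t : Λ → ι) (φ : X → ℝ), Bd φ →
        |∫ z, φ z.1 * ∏ l ∈ σ, cen η (Q (t l)) (Φ' (T.rep^[n l] z)).2 ∂(m.prod η)| ≤ ε := by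
  set μ := m.prod η with hμ
  set r : ℝ := (σ.card : ℝ) with hr
  have hr0 : 0 < r := by rw [hr]; exact_mod_cast hσ.card_pos
  obtain ⟨K, hK0, hK⟩ := hC (ε / 2 / (r * r)) (by positivity)
  have hK' : (0 : ℝ) < K := by exact_mod_cast hK0
  obtain ⟨s, hs⟩ := exists_nat_gt (4 * (r * K) / ε)
  have hs' : (0 : ℝ) < s := lt_trans (by positivity) hs
  have hs0 : 0 < s := by exact_mod_cast hs'
  obtain ⟨δ, ⟨hδ1, hδ2⟩, hδ⟩ := (((ev_small 1 hc).and
    (ev_small (r * K * (s * (r * 4) + r * 4)) (show 0 < ε / 4 by positivity))).and self_mem_nhdsWithin).exists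
  have hδ : 0 < δ := hδ
  obtain ⟨τ, B, J, hτ, hB, hτK, hJ, hclose, htype, hO, hI⟩ := exists_types' hR hK (s ^ 2) hδ
  obtain ⟨L, hL⟩ := eventually_atTop.mp (eventually_all.mpr fun i => cen_corr hS (hQ i) hδ)
  have hA : Measurable fun x => L * B x := hB.const_mul L
  have hΨ := gauge_skew (m := m) S hA
  have hΘ := hG.comp hΨ
  obtain ⟨T₁, hT₁, hT₁e, hT₁j⟩ := exists_conj R hΘ
  have mR : ∀ j, Measurable R.rep^[j] := fun j => R.rep.measurable.iterate j
  set h : ι → X × Y → ℝ := fun i z => cen η (Q i) (Φ' z).2 with hh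
  have bh : ∀ i, Bd (h i) := fun i => (bd_cen (hQ i)).comp (measurable_snd.comp hG.mp'.measurable)
  have hmodel : ∀ i j, ∀ᵐ w ∂μ, h i (T₁.rep^[j] (Φ (w.1, S.rep^[L * B w.1] w.2))) =
      cen η (Q i) (S.rep^[L * B (R.rep^[j] w.1)] w.2) := by
    intro i j
    filter_upwards [hT₁j j, (hΨ.mp.comp ((pm_mp R.mp).iterate j)).quasiMeasurePreserving.ae hG.left]
      with w h1 h2
    simp only [Function.comp, pm_iter] at h2
    simp only [hh, h1, h2]
  have bhT : ∀ (T : Aut μ) i j, Bd fun z => h i (T.rep^[j] z) := fun T i j =>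
    (bh i).comp (T.rep.measurable.iterate j)
  have O1 : ∀ i, ∀ k < K, ∀ j ∈ J k, ∀ j' ∈ J k, j < j' → ∀ ψ : X → ℝ, Bd ψ →
      (∀ x, ψ x ≠ 0 → τ (R.rep^[j] x) = k ∧ τ (R.rep^[j'] x) = k) →
      |∫ z, ψ z.1 * (h i (T₁.rep^[j] z) * h i (T₁.rep^[j'] z)) ∂μ| ≤ δ + δ := by
    intro i k hk j hj j' hj' hjj ψ hψ hsupp
    have mD : MeasurableSet {x | τ (R.rep^[j] x) = k ∧ τ (R.rep^[j'] x) = k ∧
        ¬ B (R.rep^[j] x) < B (R.rep^[j'] x)} :=
      (meas_pred (hτ.comp (mR j)) (· = k)).inter ((meas_pred (hτ.comp (mR j')) (· = k)).inter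
        (measurableSet_lt (hB.comp (mR j)) (hB.comp (mR j'))).compl)
    have := model_O (m := m) S.mp (bd_cen (hQ i)) (fun n hn => hL n hn i) hδ.le
      (hA.comp (mR j)) (hA.comp (mR j')) hψ mD (fun x hx hD => by
        have h1 := hsupp x hx
        have h2 : B (R.rep^[j] x) < B (R.rep^[j'] x) := by
          by_contra hn
          exact hD ⟨h1.1, h1.2, hn⟩
        exact Nat.mul_le_mul_left L (Nat.succ_le_of_lt h2))
    refine le_trans (le_of_eq ?_) (this.trans (add_le_add le_rfl (hO k hk j hj j' hj' hjj)))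
    congr 1
    rw [← int_comp hΘ.mp ((hψ.comp measurable_fst).mul ((bhT T₁ i j).mul (bhT T₁ i j'))).meas]
    refine integral_congr_ae ?_
    filter_upwards [hΘ.fst, hmodel i j, hmodel i j'] with w h1 h2 h3
    rw [h1, h2, h3]
    rfl
  have mV : ∀ k j, Bd fun z : X × Y => {x | k < τ x}.indicator (1 : X → ℝ) (R.rep^[j] z.1) :=
    fun k j => (bd_indicator (meas_pred hτ (k < ·))).comp ((mR j).comp measurable_fst)
  have I1 : ∀ i, ∀ k < K, ∀ j ∈ J k,
      ∫ z, {x | k < τ x}.indicator 1 (R.rep^[j] z.1) * |h i (T₁.rep^[j] z) - h i z| ∂μ ≤ δ := by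
    intro i k hk j hj
    have mD : MeasurableSet {x | k < τ (R.rep^[j] x) ∧ B (R.rep^[j] x) ≠ B x} :=
      (meas_pred (hτ.comp (mR j)) (k < ·)).inter (measurableSet_eq_fun (hB.comp (mR j)) hB).compl
    refine le_trans ?_ (hI k hk j hj)
    have mm : Measurable fun z : X × Y => {x | k < τ x}.indicator (1 : X → ℝ) (R.rep^[j] z.1) *
        |h i (T₁.rep^[j] z) - h i z| := (mV k j).meas.mul ((bhT T₁ i j).meas.sub (bh i).meas).abs
    rw [← int_comp hΘ.mp mm, ← integral_indicator_one mD, ← int_comp (measurePreserving_fst (μ := m) (ν := η))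
        (bd_indicator mD).meas]
    refine (le_abs_self _).trans (abs_int_le (((bd_indicator mD).comp measurable_fst).integrable μ) ?_)
    filter_upwards [hΘ.fst, hmodel i j, hmodel i 0] with w h1 h2 h3
    simp only [Function.iterate_zero, id] at h3
    rw [h1, h2, h3, abs_mul, abs_abs]
    by_cases hk' : k < τ (R.rep^[j] w.1)
    · by_cases hb : B (R.rep^[j] w.1) = B w.1
      · rw [hb, sub_self, abs_zero, mul_zero]
        exact indicator_nonneg (fun _ _ => zero_le_one) _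
      · rw [indicator_of_mem (s := {x | k < τ (R.rep^[j] x) ∧ B (R.rep^[j] x) ≠ B x}) ⟨hk', hb⟩]
        exact mul_le_one₀ ((mV k j).le w) (abs_nonneg _) (cen_sub_le _ _ _)
    · rw [indicator_of_notMem (s := {x | k < τ x}) hk', abs_zero, zero_mul]
      exact indicator_nonneg (fun _ _ => zero_le_one) _
  refine ⟨T₁, hT₁, ?_, ?_⟩
  · have mD : MeasurableSet {x | B (R.rep x) ≠ B x} :=
      (measurableSet_eq_fun (hB.comp R.rep.measurable) hB).compl
    refine le_trans ?_ (hclose.trans (by linarith only [hδ1]))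
    rw [← real_fst (η := η) mD]
    refine ENNReal.toReal_mono (measure_ne_top _ _) (measure_mono_ae ?_)
    filter_upwards [hT₁e, hG.fst'] with z h1 h2 hne hb
    apply hne
    rw [h1]
    simp only [pm, h2, hb, iter_symm]
  obtain ⟨N, hN⟩ := eventually_atTop.mp htype
  refine ⟨N, ?_⟩
  have hst : ∀ᶠ T in 𝓝 T₁, ∀ i, ∀ k ∈ Finset.range K, ∀ j ∈ J k,
      ∫ z, |h i (T.rep^[j] z) - h i (T₁.rep^[j] z)| ∂μ ≤ δ :=
    eventually_all.mpr fun i => (Finset.eventually_all _).mpr fun k _ =>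
      (Finset.eventually_all _).mpr fun j _ =>
        stable_fun T₁ (measurable_snd.comp hG.mp'.measurable) (hQ i) j hδ
  filter_upwards [hst] with T hT hTe n hn t φ hφ
  have O2 : ∀ i, ∀ k < K, ∀ j ∈ J k, ∀ j' ∈ J k, j < j' → ∀ ψ : X → ℝ, Bd ψ →
      (∀ x, ψ x ≠ 0 → τ (R.rep^[j] x) = k ∧ τ (R.rep^[j'] x) = k) →
      |∫ z, ψ z.1 * (h i (T.rep^[j] z) * h i (T.rep^[j'] z)) ∂μ| ≤ 4 * δ := by
    intro i k hk j hj j' hj' hjj ψ hψ hsupp
    have a1 := perturb_O (μ := μ) (hψ.comp measurable_fst) (bhT T i j) (bhT T i j') (bhT T₁ i j)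
      (bhT T₁ i j')
    have a2 := O1 i k hk j hj j' hj' hjj ψ hψ hsupp
    have a3 := hT i k (Finset.mem_range.mpr hk) j hj
    have a4 := hT i k (Finset.mem_range.mpr hk) j' hj'
    linarith only [a1, a2, a3, a4]
  have O3 : ∀ i, ∀ k < K, ∀ j ∈ J k, ∀ j' ∈ J k, j ≠ j' → ∀ ψ : X → ℝ, Bd ψ →
      (∀ x, ψ x ≠ 0 → τ (R.rep^[j] x) = k ∧ τ (R.rep^[j'] x) = k) →
      |∫ z, ψ z.1 * (h i (T.rep^[j] z) * h i (T.rep^[j'] z)) ∂μ| ≤ 4 * δ := by
    intro i k hk j hj j' hj' hjj ψ hψ hsupp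
    rcases lt_or_gt_of_ne hjj with hlt | hlt
    · exact O2 i k hk j hj j' hj' hlt ψ hψ hsupp
    · simpa only [mul_comm (h i (T.rep^[j'] _))] using
        O2 i k hk j' hj' j hj hlt ψ hψ fun x hx => (hsupp x hx).symm
  have I2 : ∀ i, ∀ k < K, ∀ j ∈ J k,
      ∫ z, {x | k < τ x}.indicator 1 (R.rep^[j] z.1) * |h i (T.rep^[j] z) - h i z| ∂μ ≤ 4 * δ := by
    intro i k hk j hj
    have a1 := perturb_I (μ := μ) (mV k j) (bhT T i j) (bhT T₁ i j) (bh i)
    have a2 := I1 i k hk j hj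
    have a3 := hT i k (Finset.mem_range.mpr hk) j hj
    linarith
  have := assembleR T.mp hTe hσ (f := fun l => h (t l)) (fun l _ => bh (t l)) hτ hτK hs0 hJ
    (δ := 4 * δ) (by positivity) (fun l _ => O3 (t l)) (fun l _ => I2 (t l)) n hφ
  refine this.trans ?_
  have a1 := coin_small R.mp hτ (by positivity) hN hn
  rw [← hr] at a1 ⊢
  have a2 : r * (r * (ε / 2 / (r * r))) = ε / 2 := by field_simp
  have a3 : r * K * (1 / (s : ℝ)) ≤ ε / 4 := by
    clear * - K s ε hs' hε hs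
    rw [div_lt_iff₀ hε] at hs
    rw [mul_one_div, div_le_iff₀ hs']; linarith only [hs]
  linarith only [hδ2, a1, a2, a3]

theorem hybrid {Φ Φ' : X × Y → X × Y} (hG : Gauge m η Φ Φ') {Λ : Type*} {A : Λ → Set (X × Y)}
    (hA : ∀ l, MeasurableSet (A l)) (σ : Finset Λ) : ∀ ε : ℝ, 0 < ε →
    ∃ (ι : Type) (_ : Fintype ι) (Q : ι → Set Y) (M : ℝ), 0 ≤ M ∧ (∀ i, MeasurableSet (Q i)) ∧
      ∀ (U : Λ → X × Y → X × Y) (ρ : Λ → X → X),
        (∀ l, MeasurePreserving (U l) (m.prod η) (m.prod η)) → (∀ l, Measurable (ρ l)) →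
        (∀ l, ∀ᵐ z ∂(m.prod η), (U l z).1 = ρ l z.1) → ∀ G : X × Y → ℝ, Bd G → ∀ θ : ℝ, 0 ≤ θ →
        (∀ (t : Λ → ι) (φ : X → ℝ), Bd φ → |∫ z, φ z.1 *
          ((∏ l ∈ σ, cen η (Q (t l)) (Φ' (U l z)).2) * G z) ∂(m.prod η)| ≤ θ) →
        ∀ φ : X → ℝ, Bd φ →
          |∫ z, φ z.1 * ((∏ l ∈ σ, cenZ η (A l) (U l z)) * G z) ∂(m.prod η)| ≤ ε + M * θ := by
  classical
  induction σ using Finset.induction_on with
  | empty =>
    intro ε hε
    refine ⟨Unit, inferInstance, fun _ => ∅, 1, zero_le_one, fun _ => MeasurableSet.empty,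
      fun U ρ _ _ _ G _ θ _ H φ hφ => ?_⟩
    have := H (fun _ => ()) φ hφ
    simp only [Finset.prod_empty] at this ⊢
    linarith only [this, hε]
  | insert a σ ha ih =>
    intro ε hε
    obtain ⟨ι, _, b, Q, hb, hQ, hF⟩ := approx_gauge hG (hA a) (half_pos hε)
    set p : ℝ := (Fintype.card ι : ℝ) with hp
    have hp0 : 0 ≤ p := Nat.cast_nonneg _
    obtain ⟨ι', _, Q', M, hM, hQ', H'⟩ := ih (ε / 2 / (p + 1)) (by positivity)
    refine ⟨ι ⊕ ι', inferInstance, Sum.elim Q Q', p * M, by positivity,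
      by rintro (i | i); exacts [hQ i, hQ' i], fun U ρ hU hρ hUρ G hG' θ hθ H φ hφ => ?_⟩
    have mΦ : Measurable fun z => (Φ' z).2 := measurable_snd.comp hG.mp'.measurable
    have bc : ∀ i, Bd fun z : X × Y => cen η (Q i) (Φ' (U a z)).2 := fun i =>
      (bd_cen (hQ i)).comp (mΦ.comp (hU a).measurable)
    have bP : Bd fun z => ∏ l ∈ σ, cenZ η (A l) (U l z) :=
      bd_prod σ fun l _ => (bd_cenZ (hA l)).comp (hU l).measurable
    have bφ := hφ.comp (measurable_fst (α := X) (β := Y))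
    have t1 : ∀ i, |∫ z, φ z.1 * b i (ρ a z.1) * ((∏ l ∈ σ, cenZ η (A l) (U l z)) *
        (cen η (Q i) (Φ' (U a z)).2 * G z)) ∂(m.prod η)| ≤ ε / 2 / (p + 1) + M * θ := by
      intro i
      refine H' U ρ hU hρ hUρ _ ((bc i).mul hG') θ hθ (fun t ψ hψ => ?_) _
        (hφ.mul ((hb i).comp (hρ a)))
      refine le_trans (le_of_eq ?_) (H (fun l => if l = a then Sum.inl i else Sum.inr (t l)) ψ hψ)
      congr 1
      refine integral_congr_ae (Eventually.of_forall fun z => ?_)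
      simp only
      rw [Finset.prod_insert ha, if_pos rfl, Finset.prod_congr rfl (s₂ := σ)
        (f := fun l => cen η (Sum.elim Q Q' (if l = a then Sum.inl i else Sum.inr (t l)))
          (Φ' (U l z)).2) (g := fun l => cen η (Q' (t l)) (Φ' (U l z)).2) (fun l hl => by
          rw [if_neg (fun h : l = a => ha (h ▸ hl)), Sum.elim_inr]), Sum.elim_inl]
      ring
    have bt : ∀ i, Bd fun z : X × Y => φ z.1 * b i (ρ a z.1) * ((∏ l ∈ σ, cenZ η (A l) (U l z)) *
        (cen η (Q i) (Φ' (U a z)).2 * G z)) := fun i =>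
      ((hφ.mul ((hb i).comp (hρ a))).comp measurable_fst).mul (bP.mul ((bc i).mul hG'))
    have i3 := integrable_finsetSum Finset.univ fun i _ => (bt i).integrable (m.prod η)
    have t3 : |∫ z, ∑ i, φ z.1 * b i (ρ a z.1) * ((∏ l ∈ σ, cenZ η (A l) (U l z)) *
        (cen η (Q i) (Φ' (U a z)).2 * G z)) ∂(m.prod η)| ≤ p * (ε / 2 / (p + 1) + M * θ) := by
      rw [integral_finsetSum _ fun i _ => (bt i).integrable (m.prod η)]
      exact (Finset.abs_sum_le_sum_abs _ _).trans ((Finset.sum_le_sum fun i _ => t1 i).trans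
        (by rw [Finset.sum_const, Finset.card_univ, nsmul_eq_mul]))
    set F : X × Y → ℝ := fun z => ∑ i, b i z.1 * cen η (Q i) (Φ' z).2 with hFd
    have bu : ∀ i, Bd fun z : X × Y => b i z.1 * cen η (Q i) (Φ' z).2 := fun i =>
      ((hb i).comp measurable_fst).mul ((bd_cen (hQ i)).comp mΦ)
    have mF : Measurable F := Finset.measurable_sum _ fun i _ => (bu i).meas
    have iF : Integrable F (m.prod η) :=
      integrable_finsetSum _ fun i _ => (bu i).integrable (m.prod η)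
    have j1 : Integrable (fun z => |cenZ η (A a) (U a z) - F (U a z)|) (m.prod η) :=
      (hU a).integrable_comp_of_integrable (((bd_cenZ (hA a)).integrable (m.prod η)).sub' iF).abs
    have i0 : Integrable (fun z => φ z.1 * ((∏ l ∈ insert a σ, cenZ η (A l) (U l z)) * G z))
        (m.prod η) :=
      (bφ.mul ((bd_prod _ fun l _ => (bd_cenZ (hA l)).comp (hU l).measurable).mul hG')).integrable _
    have t12 : |∫ z, φ z.1 * ((∏ l ∈ insert a σ, cenZ η (A l) (U l z)) * G z) ∂(m.prod η) -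
        ∫ z, ∑ i, φ z.1 * b i (ρ a z.1) * ((∏ l ∈ σ, cenZ η (A l) (U l z)) *
        (cen η (Q i) (Φ' (U a z)).2 * G z)) ∂(m.prod η)| ≤ ε / 2 := by
      rw [← integral_sub i0 i3]
      refine (abs_int_le j1 ?_).trans ?_
      · filter_upwards [hUρ a] with z hz
        have e : φ z.1 * ((∏ l ∈ insert a σ, cenZ η (A l) (U l z)) * G z) -
            ∑ i, φ z.1 * b i (ρ a z.1) * ((∏ l ∈ σ, cenZ η (A l) (U l z)) *
            (cen η (Q i) (Φ' (U a z)).2 * G z)) =
            φ z.1 * ((∏ l ∈ σ, cenZ η (A l) (U l z)) * G z) *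
              (cenZ η (A a) (U a z) - F (U a z)) := by
          rw [Finset.prod_insert ha, mul_sub, hFd]
          simp only [hz]
          rw [Finset.mul_sum]
          congr 1
          · ring
          · exact Finset.sum_congr rfl fun i _ => by ring
        rw [e, abs_mul]
        exact mul_le_of_le_one_left (abs_nonneg _) ((bφ.mul (bP.mul hG')).le z)
      · have mm : Measurable fun z => |cenZ η (A a) z - F z| := ((bd_cenZ (hA a)).meas.sub mF).abs
        rw [int_comp (hU a) mm]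
        exact hF
    have t4 : p * (ε / 2 / (p + 1)) ≤ ε / 2 := by
      rw [← mul_div_assoc, div_le_iff₀ (by positivity)]
      nlinarith only [hε, hp0]
    have t5 := abs_sub_abs_le_abs_sub
      (∫ z, φ z.1 * ((∏ l ∈ insert a σ, cenZ η (A l) (U l z)) * G z) ∂(m.prod η))
      (∫ z, ∑ i, φ z.1 * b i (ρ a z.1) * ((∏ l ∈ σ, cenZ η (A l) (U l z)) *
        (cen η (Q i) (Φ' (U a z)).2 * G z)) ∂(m.prod η))
    nlinarith only [t3, t12, t4, t5]

/-- eventually small multiple correlations -/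
def SmallR (m : Measure X) (η : Measure Y) (T : X × Y → X × Y) {Λ : Type*} (σ : Finset Λ)
    (A : Λ → Set (X × Y)) (ε : ℝ) : Prop :=
  ∃ N, ∀ n, Sep σ N n → ∀ φ : X → ℝ, Bd φ →
    |∫ z, φ z.1 * ∏ l ∈ σ, cenZ η (A l) (T^[n l] z) ∂(m.prod η)| ≤ ε

theorem dense_setsR [StandardBorelSpace X] [StandardBorelSpace Y] {R : Aut m} (hR : Clock R)
    (hC : Col R) {S : Aut η} (hS : IsMixing S) {Λ : Type*} {σ : Finset Λ} (hσ : σ.Nonempty)
    {A : Λ → Set (X × Y)} (hA : ∀ l, MeasurableSet (A l))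
    {ε c : ℝ} (hε : 0 < ε) (hc : 0 < c) {T₀ : Aut (m.prod η)} (hT₀ : T₀ ∈ Extensions η R) :
    ∃ T₁ : Aut (m.prod η), T₁ ∈ Extensions η R ∧ (m.prod η).real {z | T₁.rep z ≠ T₀.rep z} ≤ c ∧
      ∀ᶠ T in 𝓝 T₁, T ∈ Extensions η R → SmallR m η T.rep σ A ε := by
  obtain ⟨Φ, Φ', hG, hΦ⟩ := exists_cob' hR hT₀ (half_pos hc)
  obtain ⟨ι, _, Q, M, hM, hQ, H⟩ := hybrid hG hA σ (ε / 2) (half_pos hε)
  have hθ : 0 < ε / 2 / (M + 1) := by positivity
  obtain ⟨T₁, hT₁, hclose, N, hN⟩ := dense_prodR hR hC hS hG hQ hθ (half_pos hc) hσ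
  refine ⟨T₁, hT₁, ?_, ?_⟩
  · refine le_trans (measureReal_mono (s₂ := {z | T₁.rep z ≠ Φ (pm R.rep (Φ' z))} ∪
      {z | Φ (pm R.rep (Φ' z)) ≠ T₀.rep z}) (fun z hz => ?_) (measure_ne_top _ _))
      ((measureReal_union_le _ _).trans (by linarith only [hΦ, hclose]))
    by_contra hn
    simp only [mem_union, mem_ofPred_eq, not_or, not_not] at hn
    exact hz (hn.1.trans hn.2)
  filter_upwards [hN] with T hT hTe
  refine ⟨N, fun n hn φ hφ => ?_⟩
  have := H (fun l => T.rep^[n l]) (fun l => R.rep^[n l]) (fun l => T.mp.iterate _)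
    (fun l => R.rep.measurable.iterate _) (fun l => ext_iter T.mp hTe _) _ bd_one _ hθ.le
    (fun t ψ hψ => by simpa only [mul_one] using hT hTe n hn t ψ hψ) φ hφ
  simp only [mul_one] at this
  refine this.trans ?_
  have t4 : M * (ε / 2 / (M + 1)) ≤ ε / 2 := by
    rw [← mul_div_assoc, div_le_iff₀ (by positivity)]
    nlinarith only [hε, hM]
  linarith only [t4]

theorem small_residualR [StandardBorelSpace X] [StandardBorelSpace Y] {R : Aut m} (hR : Clock R)
    (hC : Col R) {S : Aut η} (hS : IsMixing S) {Λ : Type*} {σ : Finset Λ} (hσ : σ.Nonempty)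
    {A : Λ → Set (X × Y)} (hA : ∀ l, MeasurableSet (A l)) {ε : ℝ} (hε : 0 < ε) :
    ∀ᶠ T in residual (Extensions η R), SmallR m η T.1.rep σ A ε := by
  refine mem_of_superset (residual_of_dense_open isOpen_interior ?_)
    (interior_subset (s := {T : Extensions η R | SmallR m η T.1.rep σ A ε}))
  intro T₀
  rw [mem_closure_iff_nhds]
  intro O hO
  obtain ⟨O', hO', hsub⟩ := (mem_nhds_subtype _ _ _).mp hO
  obtain ⟨δ, hδ, hδ'⟩ := exists_delta hO'
  have hc : 0 < (min δ 1).toReal := ENNReal.toReal_pos (lt_min hδ one_pos).ne' (by simp)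
  obtain ⟨T₁, hT₁, hclose, hN⟩ := dense_setsR hR hC hS hσ hA hε hc T₀.2
  refine ⟨⟨T₁, hT₁⟩, hsub (hδ' T₁ ?_), mem_interior_iff_mem_nhds.mpr ?_⟩
  · exact ((ENNReal.toReal_le_toReal (measure_ne_top _ _) (by simp)).mp hclose).trans
      (min_le_left _ _)
  · filter_upwards [(continuous_subtype_val.tendsto
      (⟨T₁, hT₁⟩ : Extensions η R)).eventually hN] with T hT
    exact hT T.2

theorem SmallR.approx {T : X × Y → X × Y} (hT : MeasurePreserving T (m.prod η) (m.prod η))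
    {Λ : Type*} {σ : Finset Λ} {A A' : Λ → Set (X × Y)} (hA : ∀ l, MeasurableSet (A l))
    (hA' : ∀ l, MeasurableSet (A' l)) {ε e : ℝ} (h : SmallR m η T σ A' ε)
    (he : ∀ l, (m.prod η).real (A l ∆ A' l) ≤ e) : SmallR m η T σ A (ε + σ.card * (2 * e)) := by
  obtain ⟨N, hN⟩ := h
  refine ⟨N, fun n hn φ hφ => ?_⟩
  have mT : ∀ j, Measurable T^[j] := fun j => hT.measurable.iterate j
  have bφ := hφ.comp (measurable_fst (α := X) (β := Y))
  have i0 := (bφ.mul (bd_prod σ fun l _ =>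
    (bd_cenZ (η := η) (hA l)).comp (mT (n l)))).integrable (m.prod η)
  have i1 := (bφ.mul (bd_prod σ fun l _ =>
    (bd_cenZ (η := η) (hA' l)).comp (mT (n l)))).integrable (m.prod η)
  have j1 : ∀ l, Integrable (fun z => |cenZ η (A l) (T^[n l] z) - cenZ η (A' l) (T^[n l] z)|)
      (m.prod η) := fun l => (hT.iterate (n l)).integrable_comp_of_integrable
    (((bd_cenZ (η := η) (hA l)).integrable (m.prod η)).sub'
      ((bd_cenZ (η := η) (hA' l)).integrable (m.prod η))).abs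
  have t : |∫ z, φ z.1 * ∏ l ∈ σ, cenZ η (A l) (T^[n l] z) ∂(m.prod η) -
      ∫ z, φ z.1 * ∏ l ∈ σ, cenZ η (A' l) (T^[n l] z) ∂(m.prod η)| ≤ σ.card * (2 * e) := by
    rw [← integral_sub i0 i1]
    refine (abs_int_le (integrable_finsetSum σ fun l _ => j1 l)
      (Eventually.of_forall fun z => ?_)).trans ?_
    · rw [← mul_sub, abs_mul]
      exact (mul_le_of_le_one_left (abs_nonneg _) (hφ.le _)).trans
        (prod_tel σ (fun l _ => (bd_cenZ (hA l)).le _) (fun l _ => (bd_cenZ (hA' l)).le _))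
    · rw [integral_finsetSum _ fun l _ => j1 l]
      refine (Finset.sum_le_sum (g := fun _ => 2 * e) fun l _ => ?_).trans (by simp)
      have mm : Measurable fun z => |cenZ η (A l) z - cenZ η (A' l) z| :=
        ((bd_cenZ (hA l)).meas.sub (bd_cenZ (hA' l)).meas).abs
      rw [int_comp (hT.iterate (n l)) mm]
      linarith only [cenZ_dist (m := m) (η := η) (hA l) (hA' l), he l]
  linarith only [t, hN n hn φ hφ, abs_sub_abs_le_abs_sub
    (∫ z, φ z.1 * ∏ l ∈ σ, cenZ η (A l) (T^[n l] z) ∂(m.prod η))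
    (∫ z, φ z.1 * ∏ l ∈ σ, cenZ η (A' l) (T^[n l] z) ∂(m.prod η))]

theorem good_residualR [StandardBorelSpace X] [StandardBorelSpace Y] {R : Aut m} (hR : Clock R)
    (hC : Col R) {S : Aut η} (hS : IsMixing S) : ∀ᶠ T in residual (Extensions η R),
      ∀ (r : ℕ) (σ : Finset (Fin r)), σ.Nonempty → ∀ A : Fin r → Set (X × Y),
        (∀ l, MeasurableSet (A l)) → ∀ ε, 0 < ε → SmallR m η T.1.rep σ A ε := by
  obtain ⟨𝒜, hc, hd⟩ := exists_countable_measureDense (m.prod η)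
  have := hc.to_subtype
  have h : ∀ᶠ T in residual (Extensions η R), ∀ (r : ℕ) (σ : {σ : Finset (Fin r) // σ.Nonempty})
      (A : Fin r → 𝒜) (k : ℕ), SmallR m η T.1.rep σ.1 (fun l => (A l).1) (1 / (k + 1)) :=
    eventually_countable_forall.mpr fun r => eventually_countable_forall.mpr fun σ =>
      eventually_countable_forall.mpr fun A => eventually_countable_forall.mpr fun k =>
        small_residualR hR hC hS σ.2 (fun l => hd.measurable _ (A l).2) (by positivity)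
  filter_upwards [h] with T hT r σ hσ A hA ε hε
  have hr0 : (0 : ℝ) < σ.card := by exact_mod_cast hσ.card_pos
  have he : 0 < ε / 4 / σ.card := by positivity
  choose A' hA' h1 using fun l => hd.approx (A l) (hA l) (measure_ne_top _ _) _ he
  obtain ⟨k, hk⟩ := exists_nat_one_div_lt (half_pos hε)
  obtain ⟨N, hN⟩ := (hT r ⟨σ, hσ⟩ (fun l => ⟨A' l, hA' l⟩) k).approx T.1.mp hA
    (fun l => hd.measurable _ (hA' l))
    (fun l => ENNReal.toReal_le_of_le_ofReal he.le (h1 l).le)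
  refine ⟨N, fun n hn φ hφ => (hN n hn φ hφ).trans ?_⟩
  have : (σ.card : ℝ) * (2 * (ε / 4 / σ.card)) = ε / 2 := by field_simp; ring
  simp only
  linarith only [hk, this]

end Pool.Agent.Work.MP_2967d5_an.AO
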