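import Pool.Agent.Work.MP_2967d5_an.AO.Dense

/-! From centred multiple correlations to mixing of all orders, and back to strong mixing. -/

open MeasureTheory Set Filter Topology
open scoped symmDiff ENNReal

namespace Pool.Agent.Work.MP_2967d5_an.AO

variable {X Y : Type*} [MeasurableSpace X] [MeasurableSpace Y] {m : Measure X} {η : Measure Y}
  [IsProbabilityMeasure m] [IsProbabilityMeasure η]

theorem lint_of_test {E : X → ℝ} (mE : Measurable E) (iE : Integrable E m) {ε : ℝ}
    (h : ∀ φ : X → ℝ, Bd φ → |∫ x, φ x * E x ∂m| ≤ ε) : ∫⁻ x, ‖E x‖ₑ ∂m ≤ ENNReal.ofReal ε := by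
  set φ : X → ℝ := fun x => if 0 ≤ E x then 1 else -1 with hφ
  have bφ : Bd φ := ⟨Measurable.ite (measurableSet_le measurable_const mE) measurable_const
    measurable_const, fun x => by by_cases h : 0 ≤ E x <;> simp [hφ, h]⟩
  rw [← ofReal_integral_norm_eq_lintegral_enorm iE]
  refine ENNReal.ofReal_le_ofReal (le_trans (le_of_eq ?_) ((le_abs_self _).trans (h φ bφ)))
  congr 1
  funext x
  by_cases h : 0 ≤ E x
  · simp only [hφ, if_pos h, one_mul, Real.norm_eq_abs, abs_of_nonneg h]
  · simp only [hφ, if_neg h, neg_one_mul, Real.norm_eq_abs, abs_of_neg (not_le.mp h)]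

theorem allOrder_of_small {R : Aut m} {T : Extensions η R}
    (hT : ∀ (r : ℕ) (σ : Finset (Fin r)), σ.Nonempty → ∀ A : Fin r → Set (X × Y),
      (∀ l, MeasurableSet (A l)) → ∀ ε, 0 < ε → SmallR m η T.1.rep σ A ε) :
    T ∈ AllOrderMixing η R := by
  intro r A hA ε hε
  obtain ⟨e, he, heε⟩ : ∃ e : ℝ, 0 < e ∧ ENNReal.ofReal e ≤ ε := by
    obtain ⟨e, -, h1, h2⟩ := ENNReal.lt_iff_exists_real_btwn.mp hε
    exact ⟨e, ENNReal.ofReal_pos.mp h1, h2.le⟩
  have he' : 0 < e / 2 ^ r := by positivity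
  have h1 : ∀ σ : Finset (Fin r), ∃ N, σ.Nonempty → ∀ n, Sep σ N n → ∀ φ : X → ℝ, Bd φ →
      |∫ z, φ z.1 * ∏ l ∈ σ, cenZ η (A l) (T.1.rep^[n l] z) ∂(m.prod η)| ≤ e / 2 ^ r := by
    intro σ
    by_cases hσ : σ.Nonempty
    · obtain ⟨N, hN⟩ := hT r σ hσ A hA _ he'
      exact ⟨N, fun _ => hN⟩
    · exact ⟨0, fun h => absurd h hσ⟩
  choose N hN using h1
  refine ⟨Finset.univ.sup N, fun n hn => le_trans ?_ heε⟩
  have hsep : ∀ σ, Sep σ (N σ) n := fun σ l _ l' _ hll => by
    have := Finset.le_sup (f := N) (Finset.mem_univ σ)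
    rcases lt_or_gt_of_ne hll with h | h
    · have := hn l l' h; omega
    · have := hn l' l h; omega
  have mT : ∀ j, Measurable T.1.rep^[j] := fun j => T.1.rep.measurable.iterate j
  have mR : ∀ j, Measurable R.rep^[j] := fun j => R.rep.measurable.iterate j
  set D : Set (X × Y) := {z | ∀ l, T.1.rep^[n l] z ∈ A l} with hD
  have mD : MeasurableSet D := by
    have : D = ⋂ l, T.1.rep^[n l] ⁻¹' A l := by ext z; simp [hD]
    rw [this]
    exact MeasurableSet.iInter fun l => mT _ (hA l)
  have bF : ∀ l, Bd fun x => fib η (A l) (R.rep^[n l] x) := fun l => (bd_fib (hA l)).comp (mR _)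
  have bP : Bd fun x => ∏ l, fib η (A l) (R.rep^[n l] x) := bd_prod _ fun l _ => bF l
  have bC : ∀ σ : Finset (Fin r), Bd fun z => ∏ l ∈ σ, cenZ η (A l) (T.1.rep^[n l] z) := fun σ =>
    bd_prod _ fun l _ => (bd_cenZ (hA l)).comp (mT _)
  refine lint_of_test (E := fun x => fib η D x - ∏ l, fib η (A l) (R.rep^[n l] x))
    ((bd_fib mD).meas.sub bP.meas) (((bd_fib mD).integrable m).sub' (bP.integrable m))
    fun φ hφ => ?_
  have bψ : ∀ σ : Finset (Fin r), Bd fun x => φ x *
      ∏ l ∈ Finset.univ \ σ, fib η (A l) (R.rep^[n l] x) := fun σ =>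
    hφ.mul (bd_prod _ fun l _ => bF l)
  have iI := ((hφ.comp measurable_fst).mul (bd_indicator mD)).integrable (m.prod η)
  have iP := ((hφ.mul bP).comp measurable_fst).integrable (m.prod η)
  have e1 : ∫ x, φ x * (fib η D x - ∏ l, fib η (A l) (R.rep^[n l] x)) ∂m =
      ∫ z, (φ z.1 * D.indicator 1 z - φ z.1 * ∏ l, fib η (A l) (R.rep^[n l] z.1)) ∂(m.prod η) := by
    rw [integral_sub iI iP, int_comp measurePreserving_fst (hφ.mul bP).meas, integral_prod _ iI]
    simp only [integral_const_mul, fib_eq mD, mul_sub]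
    exact integral_sub ((hφ.mul (bd_fib mD)).integrable m) ((hφ.mul bP).integrable m)
  have e2 : ∀ᵐ z ∂(m.prod η),
      φ z.1 * D.indicator 1 z - φ z.1 * ∏ l, fib η (A l) (R.rep^[n l] z.1) =
      ∑ σ ∈ (Finset.univ : Finset (Fin r)).powerset.erase ∅,
        (φ z.1 * ∏ l ∈ Finset.univ \ σ, fib η (A l) (R.rep^[n l] z.1)) *
          ∏ l ∈ σ, cenZ η (A l) (T.1.rep^[n l] z) := by
    filter_upwards [ae_all_iff.mpr fun l => ext_iter T.1.mp T.2 (n l)] with z hz
    have a1 : D.indicator (1 : X × Y → ℝ) z =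
        ∏ l, (cenZ η (A l) (T.1.rep^[n l] z) + fib η (A l) (R.rep^[n l] z.1)) := by
      simp only [cenZ, hz, sub_add_cancel]
      by_cases h : z ∈ D
      · rw [indicator_of_mem h, Finset.prod_eq_one fun l _ => by rw [indicator_of_mem (h l)]; rfl]
        rfl
      · obtain ⟨l, hl⟩ := not_forall.mp h
        rw [indicator_of_notMem h,
          Finset.prod_eq_zero (Finset.mem_univ l) (indicator_of_notMem hl _)]
    rw [a1, Finset.prod_add, ← Finset.add_sum_erase _ _ (Finset.empty_mem_powerset _), mul_add,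
      Finset.prod_empty, Finset.sdiff_empty, one_mul, add_sub_cancel_left, Finset.mul_sum]
    exact Finset.sum_congr rfl fun σ _ => by ring
  rw [e1, integral_congr_ae e2, integral_finsetSum _ fun σ _ =>
    (((bψ σ).comp measurable_fst).mul (bC σ)).integrable (m.prod η)]
  refine (Finset.abs_sum_le_sum_abs _ _).trans ((Finset.sum_le_sum (g := fun _ => e / 2 ^ r)
    fun σ hσ => hN σ (Finset.nonempty_iff_ne_empty.mpr (Finset.mem_erase.mp hσ).1) n (hsep σ) _
      (bψ σ)).trans ?_)
  rw [Finset.sum_const, nsmul_eq_mul]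
  have : (((Finset.univ : Finset (Fin r)).powerset.erase ∅).card : ℝ) ≤ 2 ^ r := by
    have := Finset.card_le_card (Finset.erase_subset ∅ (Finset.univ : Finset (Fin r)).powerset)
    rw [Finset.card_powerset, Finset.card_univ, Fintype.card_fin] at this
    exact_mod_cast this
  calc _ ≤ 2 ^ r * (e / 2 ^ r) := by gcongr
    _ = e := by field_simp

theorem lift_iter {R : Aut m} (T : Extensions η R) (n : ℕ) :
    Lift m η T.1.rep^[n] R.rep^[n] :=
  ⟨T.1.mp.iterate n, R.mp.iterate n, ⟨R.rep.symm^[n], R.rep.symm.measurable.iterate n, fun x =>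
    Function.LeftInverse.iterate R.rep.symm_apply_apply n x⟩, ext_iter T.1.mp T.2 n⟩

theorem allOrder_subset (R : Aut m) : AllOrderMixing η R ⊆ MixingExtensions η R := by
  intro T hT f g hf hg
  refine tendsto_cor (U := fun n => T.1.rep^[n]) (R := fun n => R.rep^[n])
    (g := fun z => starRingEnd ℂ (g z)) (lift_iter T) (fun A B hA hB ε hε => ?_) hf ⟨?_, ?_⟩
  · obtain ⟨N, hN⟩ := hT 2 ![B, A] (Fin.forall_fin_two.mpr ⟨hB, hA⟩) _ (ENNReal.ofReal_pos.mpr hε)
    refine ⟨N, fun n hn φ hφ => ?_⟩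
    have h1 := hN ![0, n] (by
      intro l l' hl
      fin_cases l <;> fin_cases l' <;> simp_all)
    have mT : Measurable T.1.rep^[n] := T.1.rep.measurable.iterate n
    have bH : Bd fun z => cenZ η A (T.1.rep^[n] z) * cenZ η B z :=
      ((bd_cenZ hA).comp mT).mul (bd_cenZ hB)
    set E : X → ℝ := fun x => ∫ y, cenZ η A (T.1.rep^[n] (x, y)) * cenZ η B (x, y) ∂η with hE
    have bE : Bd E := ⟨bH.meas.stronglyMeasurable.integral_prod_right'.measurable, fun x =>
      (bH.comp measurable_prodMk_left).abs_integral_le η⟩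
    have h2 : ∫⁻ x, ‖E x‖ₑ ∂m ≤ ENNReal.ofReal ε := by
      refine le_trans (le_of_eq (lintegral_congr_ae ?_)) h1
      filter_upwards [cor_indicator (lift_iter T n) hA hB 1 1] with x hx
      congr 1
      have mD : MeasurableSet (T.1.rep^[n] ⁻¹' A ∩ B) := (mT hA).inter hB
      have e : ∀ (D : Set (X × Y)) z,
          D.indicator (fun _ => (1 : ℂ)) z = ((D.indicator (1 : X × Y → ℝ) z : ℝ) : ℂ) :=
        fun D z => by by_cases hz : z ∈ D <;> simp [hz]
      have e' : ∀ z, A.indicator (fun _ => (1 : ℂ)) (T.1.rep^[n] z) * B.indicator (fun _ => 1) z =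
          (((T.1.rep^[n] ⁻¹' A ∩ B).indicator (1 : X × Y → ℝ) z : ℝ) : ℂ) := fun z => by
        by_cases hz : T.1.rep^[n] z ∈ A <;> by_cases hz' : z ∈ B <;> simp [hz, hz', indicator]
      simp only [cor, condE, e', one_mul] at hx
      simp only [e, integral_complex_ofReal, fib_eq hA, fib_eq hB, fib_eq mD] at hx
      have hx' : E x = fib η (T.1.rep^[n] ⁻¹' A ∩ B) x - fib η A (R.rep^[n] x) * fib η B x := by
        exact_mod_cast hx.symm
      have e3 : {y | ∀ l, T.1.rep^[![0, n] l] (x, y) ∈ ![B, A] l} =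
          Prod.mk x ⁻¹' (T.1.rep^[n] ⁻¹' A ∩ B) := by
        ext y
        simp [Fin.forall_fin_two, and_comm]
      rw [hx', Fin.prod_univ_two, mul_comm, e3]
      rfl
    rw [← ofReal_integral_norm_eq_lintegral_enorm (bE.integrable m),
      ENNReal.ofReal_le_ofReal_iff hε.le] at h2
    rw [integral_prod _ (((hφ.comp measurable_fst).mul bH).integrable _)]
    simp only [integral_const_mul]
    refine (abs_int_le (bE.integrable m).norm (Eventually.of_forall fun x => ?_)).trans h2
    rw [abs_mul]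
    exact mul_le_of_le_one_left (abs_nonneg _) (hφ.le x)
  · exact hg.1.of_le (Complex.continuous_conj.comp_aestronglyMeasurable hg.1.1)
      (Eventually.of_forall fun z => by simp)
  · simpa using hg.2

theorem allOrder_residual [StandardBorelSpace X] [StandardBorelSpace Y] [NullSingletonClass η]
    (R : Aut m) : AllOrderMixing η R ∈ residual (Extensions η R) ↔ ¬ PartiallyRigid R := by
  refine ⟨fun h => (classification (η := η) R).2.mp (mem_of_superset h (allOrder_subset R)),
    fun h => ?_⟩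
  have hN : NR R := by
    by_contra hn
    exact h (rigid_of_not_NR hn)
  obtain ⟨S, hS⟩ := exists_mixing η
  have hc := clock_of_aperiodic hN.aperiodic
  filter_upwards [good_residualR hc (col_of_nr hN hc) hS] with T hT
  exact allOrder_of_small hT

theorem allOrder_meagre [StandardBorelSpace X] [StandardBorelSpace Y] [NullSingletonClass η]
    (R : Aut m) : IsMeagre (AllOrderMixing η R) ↔ PartiallyRigid R := by
  refine ⟨fun h => ?_, fun h => ((classification (η := η) R).1.mpr h).mono (allOrder_subset R)⟩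
  by_contra hn
  refine hn ((classification (η := η) R).1.mp ?_)
  filter_upwards [h, (allOrder_residual (η := η) R).mpr hn] with T h1 h2
  exact absurd h2 h1

end Pool.Agent.Work.MP_2967d5_an.AO
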